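import Mathlib

/-!
# MP_9a1bf0_pr: the rescaled solid angle of a random simplicial cone has no limit of mean one
-/

set_option autoImplicit false

open MeasureTheory Filter Topology Set Metric
open scoped Pointwise ENNReal RealInnerProductSpace

namespace Pool.Agent.Results.MP_9a1bf0_pr.SolidAngleLimit

/-- The space `ℝ^d`. -/
abbrev E (d : ℕ) : Type := EuclideanSpace ℝ (Fin d)

/-- The unit sphere of `ℝ^d`. -/
abbrev S (d : ℕ) : Type := sphere (0 : E d) 1

/-- The uniform (rotation invariant) probability measure on the unit sphere: the normalised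
surface measure. -/
noncomputable def unif (d : ℕ) : Measure (S d) :=
  ((volume : Measure (E d)).toSphere univ)⁻¹ • (volume : Measure (E d)).toSphere

/-- The positive hull of `x_1, ..., x_d`. -/
def pos {d : ℕ} (x : Fin d → E d) : Set (E d) :=
  {y | ∃ c : Fin d → ℝ, (∀ i, 0 ≤ c i) ∧ y = ∑ i, c i • x i}

/-- The solid angle of a set `C` (a cone). -/
noncomputable def solidAngle {d : ℕ} (C : Set (E d)) : ℝ := (unif d).real {u | (u : E d) ∈ C}

/-- `α_d`, as a function of `U_1, ..., U_d`. -/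
noncomputable def alpha {d : ℕ} (U : Fin d → S d) : ℝ := solidAngle (pos fun i => (U i : E d))

/-- The law of `(U_1, ..., U_d)`. -/
noncomputable def lawU (d : ℕ) : Measure (Fin d → S d) := Measure.pi fun _ => unif d

/-! ### The uniform measure -/

lemma finrank_E (d : ℕ) : Module.finrank ℝ (E d) = d := by simp

lemma sphere_mass_pos {d : ℕ} (hd : 1 ≤ d) : (volume : Measure (E d)).toSphere univ ≠ 0 := by
  have : Nontrivial (E d) := by
    have : Nonempty (Fin d) := ⟨⟨0, hd⟩⟩
    exact Module.nontrivial_of_finrank_pos (R := ℝ) (by rw [finrank_E]; exact hd)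
  rw [Ne, Measure.measure_univ_eq_zero]
  exact Measure.toSphere_ne_zero _

lemma unif_prob {d : ℕ} (hd : 1 ≤ d) : IsProbabilityMeasure (unif d) := by
  refine ⟨?_⟩
  unfold unif
  rw [Measure.smul_apply, smul_eq_mul]
  exact ENNReal.inv_mul_cancel (sphere_mass_pos hd) (measure_ne_top _ _)

/-- the action of an isometry on the sphere -/
noncomputable def onSphere {d : ℕ} (R : E d ≃ₗᵢ[ℝ] E d) (u : S d) : S d :=
  ⟨R u, by rw [mem_sphere_zero_iff_norm, R.norm_map]; exact mem_sphere_zero_iff_norm.1 u.2⟩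

lemma measurable_onSphere {d : ℕ} (R : E d ≃ₗᵢ[ℝ] E d) : Measurable (onSphere R) := by
  have : Continuous (onSphere R) := by
    unfold onSphere
    exact Continuous.subtype_mk (R.continuous.comp continuous_subtype_val) _
  exact this.measurable

lemma onSphere_image {d : ℕ} (R : E d ≃ₗᵢ[ℝ] E d) (s : Set (S d)) :
    (Ioo (0 : ℝ) 1 • ((↑) '' (onSphere R ⁻¹' s) : Set (E d))) =
      R ⁻¹' (Ioo (0 : ℝ) 1 • ((↑) '' s : Set (E d))) := by
  ext x
  rw [mem_preimage, Set.mem_smul, Set.mem_smul]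
  constructor
  · rintro ⟨t, ht, y, ⟨u, hu, rfl⟩, rfl⟩
    exact ⟨t, ht, _, ⟨onSphere R u, hu, rfl⟩, by simp [onSphere]⟩
  · rintro ⟨t, ht, y, ⟨u, hu, rfl⟩, h⟩
    refine ⟨t, ht, _, ⟨onSphere R.symm u, ?_, rfl⟩, ?_⟩
    · rw [mem_preimage]
      have : onSphere R (onSphere R.symm u) = u := by
        apply Subtype.ext; simp [onSphere]
      rw [this]; exact hu
    · have h2 : R (t • ((onSphere R.symm u : S d) : E d)) = R x := by
        rw [map_smul]
        simp only [onSphere, LinearIsometryEquiv.apply_symm_apply]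
        exact h
      exact R.injective h2

lemma unif_map {d : ℕ} (R : E d ≃ₗᵢ[ℝ] E d) :
    MeasurePreserving (onSphere R) (unif d) (unif d) := by
  refine ⟨measurable_onSphere R, ?_⟩
  ext s hs
  rw [Measure.map_apply (measurable_onSphere R) hs]
  unfold unif
  rw [Measure.smul_apply, Measure.smul_apply,
    Measure.toSphere_apply' _ (measurable_onSphere R hs), Measure.toSphere_apply' _ hs,
    onSphere_image]
  congr 2
  exact (R.measurePreserving).measure_preimage_emb R.toHomeomorph.measurableEmbedding _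

lemma unif_submodule {d : ℕ} (H : Submodule ℝ (E d)) (hH : H ≠ ⊤) :
    unif d {u | (u : E d) ∈ H} = 0 := by
  have hms : MeasurableSet {u : S d | (u : E d) ∈ H} :=
    (H.closed_of_finiteDimensional.measurableSet).preimage measurable_subtype_coe
  unfold unif
  rw [Measure.smul_apply, Measure.toSphere_apply' _ hms]
  have h0 : (volume : Measure (E d)) (Ioo (0 : ℝ) 1 • ((↑) '' {u : S d | (u : E d) ∈ H})) = 0 := by
    refine measure_mono_null ?_ (Measure.addHaar_submodule volume H hH)
    rintro x hx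
    rw [Set.mem_smul] at hx
    obtain ⟨t, -, y, ⟨u, hu, rfl⟩, rfl⟩ := hx
    exact H.smul_mem t hu
  rw [h0]
  simp

lemma embed_onSphere {d : ℕ} (R : E d ≃ₗᵢ[ℝ] E d) : MeasurableEmbedding (onSphere R) := by
  let e : S d ≃ᵐ S d :=
    { toFun := onSphere R
      invFun := onSphere R.symm
      left_inv := fun u => by apply Subtype.ext; simp [onSphere]
      right_inv := fun u => by apply Subtype.ext; simp [onSphere]
      measurable_toFun := measurable_onSphere R
      measurable_invFun := measurable_onSphere R.symm }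
  exact e.measurableEmbedding

lemma inner_inv {d : ℕ} {v w : E d} (hv : ‖v‖ = 1) (hw : ‖w‖ = 1) (f : ℝ → ℝ) :
    ∫ u : S d, f ⟪v, (u : E d)⟫ ∂(unif d) = ∫ u : S d, f ⟪w, (u : E d)⟫ ∂(unif d) := by
  set R := Submodule.reflection (ℝ ∙ (v - w))ᗮ with hR
  have hRv : R v = w := Submodule.reflection_sub (by rw [hv, hw])
  have h := (unif_map R).integral_comp (embed_onSphere R) (fun u : S d => f ⟪w, (u : E d)⟫)
  rw [← h]
  congr 1
  funext u
  congr 1
  rw [← hRv]
  exact (R.inner_map_map v u).symm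

lemma cont_int {d : ℕ} {F : Type*} [NormedAddCommGroup F] {f : S d → F}
    (hf : Continuous f) : Integrable f (unif d) := by
  have hfin : IsFiniteMeasure (unif d) := by
    unfold unif
    rcases Nat.eq_zero_or_pos d with h | h
    · subst h
      have : (volume : Measure (E 0)).toSphere = 0 := by
        rw [Measure.toSphere_eq_zero_iff_finrank]; simp
      rw [this]
      simp
      infer_instance
    · have := unif_prob h
      unfold unif at this
      infer_instance
  exact hf.integrable_of_hasCompactSupport (HasCompactSupport.of_compactSpace f)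

lemma sum_sq {d : ℕ} (u : S d) : ∑ i, (u : E d) i ^ 2 = 1 := by
  have h := EuclideanSpace.real_norm_sq_eq (u : E d)
  rw [mem_sphere_zero_iff_norm.1 u.2] at h
  rw [← h]; norm_num

/-- basis vectors -/
noncomputable def e {d : ℕ} (i : Fin d) : E d := EuclideanSpace.single i 1

lemma e_norm {d : ℕ} (i : Fin d) : ‖(e i : E d)‖ = 1 := by simp [e]

lemma e_inner {d : ℕ} (i : Fin d) (x : E d) : ⟪e i, x⟫ = x i := by
  simp [e, EuclideanSpace.inner_single_left]

lemma e_apply {d : ℕ} (i j : Fin d) : (e i : E d) j = if j = i then 1 else 0 := by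
  simp [e]

/-- moments -/
noncomputable def m2 (d : ℕ) (v : E d) : ℝ := ∫ u : S d, ⟪v, (u : E d)⟫ ^ 2 ∂(unif d)
noncomputable def m4 (d : ℕ) (v : E d) : ℝ := ∫ u : S d, ⟪v, (u : E d)⟫ ^ 4 ∂(unif d)

lemma m2_eq {d : ℕ} (hd : 1 ≤ d) {v : E d} (hv : ‖v‖ = 1) : m2 d v = 1 / d := by
  have hP := unif_prob hd
  have h1 : ∀ i : Fin d, ∫ u : S d, (u : E d) i ^ 2 ∂(unif d) = m2 d v := by
    intro i
    unfold m2
    rw [inner_inv hv (e_norm i) (fun x => x ^ 2)]
    simp only [e_inner]
  have h2 : ∑ i : Fin d, ∫ u : S d, (u : E d) i ^ 2 ∂(unif d) = 1 := by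
    rw [← integral_finsetSum _ (fun i _ => cont_int (by fun_prop))]
    simp only [sum_sq]
    simp
  simp only [h1, Finset.sum_const, Finset.card_univ, Fintype.card_fin, nsmul_eq_mul] at h2
  have hd' : (0 : ℝ) < d := by exact_mod_cast hd
  field_simp
  linarith

lemma m4_le {d : ℕ} (hd : 1 ≤ d) {v : E d} (hv : ‖v‖ = 1) : m4 d v ≤ 3 / d ^ 2 := by
  have hP := unif_prob hd
  have h1 : ∀ i : Fin d, ∫ u : S d, (u : E d) i ^ 4 ∂(unif d) = m4 d v := by
    intro i
    unfold m4
    rw [inner_inv hv (e_norm i) (fun x => x ^ 4)]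
    simp only [e_inner]
  have h2 : ∀ i j : Fin d, i ≠ j →
      ∫ u : S d, (u : E d) i ^ 2 * (u : E d) j ^ 2 ∂(unif d) = m4 d v / 3 := by
    intro i j hij
    have hn : ∀ s : ℝ, s ^ 2 = 1 → ‖(Real.sqrt 2)⁻¹ • (e i + s • e j : E d)‖ = 1 := by
      intro s hs
      have h0 : ‖(e i + s • e j : E d)‖ ^ 2 = 2 := by
        rw [← real_inner_self_eq_norm_sq, inner_add_left, inner_add_right, inner_add_right,
          inner_smul_left, inner_smul_left, inner_smul_right, inner_smul_right]
        simp only [e_inner, e_apply, conj_trivial, if_true]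
        rw [if_neg hij, if_neg (Ne.symm hij)]
        nlinarith
      have h1 : ‖(e i + s • e j : E d)‖ = Real.sqrt 2 := by
        rw [← h0, Real.sqrt_sq (norm_nonneg _)]
      rw [norm_smul, h1, norm_inv, Real.norm_eq_abs, abs_of_nonneg (Real.sqrt_nonneg _)]
      exact inv_mul_cancel₀ (by positivity)
    have h3 : ∀ s : ℝ, s ^ 2 = 1 →
        ∫ u : S d, (1 / 4 : ℝ) * ((u : E d) i + s * (u : E d) j) ^ 4 ∂(unif d) = m4 d v := by
      intro s hs
      unfold m4
      rw [inner_inv hv (hn s hs) (fun x => x ^ 4)]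
      congr 1
      funext u
      rw [inner_smul_left, inner_add_left, inner_smul_left, e_inner, e_inner, mul_pow]
      simp only [conj_trivial]
      congr 1
      have : (Real.sqrt 2) ^ 2 = 2 := Real.sq_sqrt (by norm_num)
      rw [inv_pow, show (4 : ℕ) = 2 * 2 by norm_num, pow_mul, this]
      norm_num
    have ha := h3 1 (by norm_num)
    have hb := h3 (-1) (by norm_num)
    have hc : ∫ u : S d, ((1 / 4 : ℝ) * ((u : E d) i + 1 * (u : E d) j) ^ 4 +
        (1 / 4 : ℝ) * ((u : E d) i + (-1) * (u : E d) j) ^ 4) ∂(unif d) = 2 * m4 d v := by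
      rw [integral_add (cont_int (by fun_prop)) (cont_int (by fun_prop)), ha, hb]; ring
    have hd2 : ∀ u : S d, ((1 / 4 : ℝ) * ((u : E d) i + 1 * (u : E d) j) ^ 4 +
        (1 / 4 : ℝ) * ((u : E d) i + (-1) * (u : E d) j) ^ 4)
        = (1 / 2 : ℝ) * (u : E d) i ^ 4 + ((1 / 2 : ℝ) * (u : E d) j ^ 4
          + 3 * ((u : E d) i ^ 2 * (u : E d) j ^ 2)) := by
      intro u; ring
    simp only [hd2] at hc
    rw [integral_add (cont_int (by fun_prop)) (cont_int (by fun_prop)),
      integral_add (cont_int (by fun_prop)) (cont_int (by fun_prop)), integral_const_mul,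
      integral_const_mul, integral_const_mul, h1, h1] at hc
    linarith
  have h3 : ∑ i : Fin d, ∑ j : Fin d, ∫ u : S d, (u : E d) i ^ 2 * (u : E d) j ^ 2 ∂(unif d)
      = 1 := by
    have e1 : ∀ i : Fin d, ∑ j : Fin d, ∫ u : S d, (u : E d) i ^ 2 * (u : E d) j ^ 2 ∂(unif d)
        = ∫ u : S d, (u : E d) i ^ 2 ∂(unif d) := by
      intro i
      rw [← integral_finsetSum _ (fun j _ => cont_int (by fun_prop))]
      congr 1
      funext u
      rw [← Finset.mul_sum, sum_sq, mul_one]
    simp only [e1]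
    rw [← integral_finsetSum _ (fun i _ => cont_int (by fun_prop))]
    simp only [sum_sq]
    simp
  have h4 : ∀ i : Fin d, ∑ j : Fin d, ∫ u : S d, (u : E d) i ^ 2 * (u : E d) j ^ 2 ∂(unif d)
      = m4 d v + (d - 1) * (m4 d v / 3) := by
    intro i
    rw [← Finset.add_sum_erase _ _ (Finset.mem_univ i)]
    have e1 : ∫ u : S d, (u : E d) i ^ 2 * (u : E d) i ^ 2 ∂(unif d) = m4 d v := by
      rw [← h1 i]; congr 1; funext u; ring
    rw [e1]
    congr 1
    rw [Finset.sum_congr rfl (fun j hj => h2 i j (Finset.ne_of_mem_erase hj).symm),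
      Finset.sum_const, Finset.card_erase_of_mem (Finset.mem_univ i), Finset.card_univ,
      Fintype.card_fin, nsmul_eq_mul, Nat.cast_sub hd, Nat.cast_one]
  simp only [h4, Finset.sum_const, Finset.card_univ, Fintype.card_fin, nsmul_eq_mul] at h3
  have hd' : (1 : ℝ) ≤ d := by exact_mod_cast hd
  rw [le_div_iff₀ (by positivity)]
  have hm : 0 ≤ m4 d v := integral_nonneg fun u => by positivity
  nlinarith

lemma abs_moment {d : ℕ} (hd : 1 ≤ d) {v : E d} (hv : ‖v‖ = 1) :
    1 / (3 * (d : ℝ)) ≤ (∫ u : S d, |⟪v, (u : E d)⟫| ∂(unif d)) ^ 2 := by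
  have hP := unif_prob hd
  have hd' : (0 : ℝ) < d := by exact_mod_cast hd
  set y := Real.sqrt (3 / d) with hy
  have hy0 : 0 < y := Real.sqrt_pos.2 (by positivity)
  have hy2 : y ^ 2 = 3 / d := Real.sq_sqrt (by positivity)
  have hpt : ∀ u : S d, 3 / (2 * y) * ⟪v, (u : E d)⟫ ^ 2 - 1 / (2 * y ^ 3) * ⟪v, (u : E d)⟫ ^ 4
      ≤ |⟪v, (u : E d)⟫| := by
    intro u
    set t := |⟪v, (u : E d)⟫| with ht
    have ht0 : 0 ≤ t := abs_nonneg _
    have e1 : ⟪v, (u : E d)⟫ ^ 2 = t ^ 2 := (sq_abs _).symm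
    have e2 : ⟪v, (u : E d)⟫ ^ 4 = t ^ 4 := by
      rw [show (4 : ℕ) = 2 * 2 by norm_num, pow_mul, pow_mul, e1]
    rw [e1, e2]
    have e3 : t - (3 / (2 * y) * t ^ 2 - 1 / (2 * y ^ 3) * t ^ 4)
        = t * (t - y) ^ 2 * (t + 2 * y) / (2 * y ^ 3) := by
      field_simp
      ring
    have e4 : 0 ≤ t * (t - y) ^ 2 * (t + 2 * y) / (2 * y ^ 3) := by positivity
    linarith
  have hint : ∫ u : S d, (3 / (2 * y) * ⟪v, (u : E d)⟫ ^ 2 - 1 / (2 * y ^ 3) *
      ⟪v, (u : E d)⟫ ^ 4) ∂(unif d) ≤ ∫ u : S d, |⟪v, (u : E d)⟫| ∂(unif d) :=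
    integral_mono (cont_int (by fun_prop)) (cont_int (by fun_prop)) hpt
  rw [integral_sub (cont_int (by fun_prop)) (cont_int (by fun_prop)), integral_const_mul,
    integral_const_mul] at hint
  have h2 := m2_eq hd hv
  have h4 := m4_le hd hv
  unfold m2 at h2
  unfold m4 at h4
  rw [h2] at hint
  have h5 : 1 / (2 * y ^ 3) * ∫ u : S d, ⟪v, (u : E d)⟫ ^ 4 ∂(unif d)
      ≤ 1 / (2 * y ^ 3) * (3 / d ^ 2) := mul_le_mul_of_nonneg_left h4 (by positivity)
  have h6 : 3 / (2 * y) * (1 / (d : ℝ)) - 1 / (2 * y ^ 3) * (3 / (d : ℝ) ^ 2) = 1 / (d * y) := by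
    have : y ^ 3 = 3 / d * y := by rw [pow_succ, hy2]
    rw [this]
    field_simp
    ring
  have h7 : 1 / (d * y) ≤ ∫ u : S d, |⟪v, (u : E d)⟫| ∂(unif d) := by linarith
  calc 1 / (3 * (d : ℝ)) = (1 / (d * y)) ^ 2 := by
        rw [div_pow, mul_pow, hy2]; field_simp
    _ ≤ _ := pow_le_pow_left₀ (by positivity) h7 2

/-! ### Product measures -/

lemma lawU_prob {d : ℕ} (hd : 1 ≤ d) : IsProbabilityMeasure (lawU d) := by
  have := unif_prob hd
  unfold lawU
  infer_instance

lemma upd_map {d : ℕ} (hd : 1 ≤ d) (i : Fin d) :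
    MeasurePreserving (fun p : (Fin d → S d) × S d => Function.update p.1 i p.2)
      ((lawU d).prod (unif d)) (lawU d) := by
  have hP := unif_prob hd
  have hm : Measurable (fun p : (Fin d → S d) × S d => Function.update p.1 i p.2) := by
    rw [measurable_pi_iff]
    intro j
    by_cases h : j = i
    · subst h
      simp only [Function.update_self]
      exact measurable_snd
    · simp only [Function.update_of_ne h]
      exact (measurable_pi_apply j).comp measurable_fst
  refine ⟨hm, ?_⟩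
  unfold lawU
  symm
  refine Measure.pi_eq fun t ht => ?_
  rw [Measure.map_apply hm (MeasurableSet.univ_pi ht)]
  have hpre : (fun p : (Fin d → S d) × S d => Function.update p.1 i p.2) ⁻¹' (univ.pi t)
      = (univ.pi (Function.update t i univ)) ×ˢ (t i) := by
    ext ⟨U, u⟩
    simp only [mem_preimage, Set.mem_pi, mem_univ, forall_true_left, mem_prod]
    constructor
    · intro h
      refine ⟨fun j => ?_, ?_⟩
      · by_cases hj : j = i
        · subst hj; simp
        · have := h j
          rw [Function.update_of_ne hj] at this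
          rw [Function.update_of_ne hj]; exact this
      · have := h i
        rwa [Function.update_self] at this
    · rintro ⟨h1, h2⟩ j
      by_cases hj : j = i
      · subst hj; rw [Function.update_self]; exact h2
      · have := h1 j
        rw [Function.update_of_ne hj] at this
        rw [Function.update_of_ne hj]; exact this
  rw [hpre, Measure.prod_prod, Measure.pi_pi]
  rw [← Finset.mul_prod_erase _ _ (Finset.mem_univ i), Function.update_self, measure_univ, one_mul,
    ← Finset.mul_prod_erase Finset.univ (fun j => unif d (t j)) (Finset.mem_univ i), mul_comm]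
  congr 1
  refine Finset.prod_congr rfl fun j hj => ?_
  rw [Function.update_of_ne (Finset.ne_of_mem_erase hj)]

/-- replacing two coordinates -/
lemma upd_map2 {d : ℕ} (hd : 1 ≤ d) (i j : Fin d) :
    MeasurePreserving (fun p : ((Fin d → S d) × S d) × S d =>
      Function.update (Function.update p.1.1 i p.1.2) j p.2)
      (((lawU d).prod (unif d)).prod (unif d)) (lawU d) := by
  have hP := unif_prob hd
  have hL := lawU_prob hd
  have h1 : MeasurePreserving (Prod.map (fun p : (Fin d → S d) × S d => Function.update p.1 i p.2)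
      (id : S d → S d)) (((lawU d).prod (unif d)).prod (unif d)) ((lawU d).prod (unif d)) :=
    (upd_map hd i).prod (MeasurePreserving.id (unif d))
  exact (upd_map hd j).comp h1

/-! ### Representations -/

lemma meas_rep {d : ℕ} {A : Set (Fin d → ℝ)} (hA : IsClosed A) :
    MeasurableSet {p : (Fin d → S d) × E d | ∃ c ∈ A, p.2 = ∑ i, c i • (p.1 i : E d)} := by
  have hU : {p : (Fin d → S d) × E d | ∃ c ∈ A, p.2 = ∑ i, c i • (p.1 i : E d)}
      = ⋃ N : ℕ, {p : (Fin d → S d) × E d | ∃ c ∈ A ∩ closedBall 0 (N : ℝ),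
        p.2 = ∑ i, c i • (p.1 i : E d)} := by
    ext p
    simp only [mem_iUnion]
    constructor
    · rintro ⟨c, hc, h⟩
      obtain ⟨N, hN⟩ := exists_nat_ge ‖c‖
      exact ⟨N, c, ⟨hc, by simpa using hN⟩, h⟩
    · rintro ⟨N, c, hc, h⟩
      exact ⟨c, hc.1, h⟩
  rw [hU]
  refine MeasurableSet.iUnion fun N => IsClosed.measurableSet ?_
  have hK : IsCompact (A ∩ closedBall (0 : Fin d → ℝ) (N : ℝ)) :=
    (isCompact_closedBall _ _).inter_left hA
  have : CompactSpace ↥(A ∩ closedBall (0 : Fin d → ℝ) (N : ℝ)) := isCompact_iff_compactSpace.1 hK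
  have h : {p : (Fin d → S d) × E d | ∃ c ∈ A ∩ closedBall 0 (N : ℝ),
        p.2 = ∑ i, c i • (p.1 i : E d)} =
      Prod.fst '' {z : ((Fin d → S d) × E d) × ↥(A ∩ closedBall (0 : Fin d → ℝ) (N : ℝ)) |
        z.1.2 = ∑ i, (z.2 : Fin d → ℝ) i • (z.1.1 i : E d)} := by
    ext p
    constructor
    · rintro ⟨c, hc, h⟩
      exact ⟨(p, ⟨c, hc⟩), h, rfl⟩
    · rintro ⟨⟨q, c⟩, h, rfl⟩
      exact ⟨c, c.2, h⟩
  rw [h]
  apply isClosedMap_fst_of_compactSpace
  refine isClosed_eq (by fun_prop) ?_
  exact continuous_finsetSum _ fun i _ =>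
    ((continuous_apply i).comp (continuous_subtype_val.comp continuous_snd)).smul
    (continuous_subtype_val.comp ((continuous_apply i).comp (continuous_fst.comp continuous_fst)))

/-- the span of the other vectors -/
noncomputable def Hk {d : ℕ} (U : Fin d → S d) (k : Fin d) : Submodule ℝ (E d) :=
  Submodule.span ℝ ((Finset.univ.erase k).image (fun j => (U j : E d)) : Finset (E d))

lemma Hk_ne_top {d : ℕ} (hd : 1 ≤ d) (U : Fin d → S d) (k : Fin d) : Hk U k ≠ ⊤ := by
  intro h
  have h1 := finrank_span_finset_le_card (R := ℝ)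
    ((Finset.univ.erase k).image (fun j => (U j : E d)))
  have h2 : Module.finrank ℝ (Hk U k) ≤
      ((Finset.univ.erase k).image (fun j => (U j : E d))).card := h1
  rw [h, finrank_top, finrank_E] at h2
  have h3 := Finset.card_image_le (s := Finset.univ.erase k) (f := fun j => (U j : E d))
  rw [Finset.card_erase_of_mem (Finset.mem_univ k), Finset.card_univ, Fintype.card_fin] at h3
  omega

lemma mem_Hk {d : ℕ} (U : Fin d → S d) (k : Fin d) {c : Fin d → ℝ} (hc : c k = 0) :
    ∑ i, c i • (U i : E d) ∈ Hk U k := by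
  rw [← Finset.add_sum_erase _ _ (Finset.mem_univ k), hc, zero_smul, zero_add]
  refine Submodule.sum_mem _ fun i hi => Submodule.smul_mem _ _ (Submodule.subset_span ?_)
  rw [Finset.coe_image]
  exact ⟨i, hi, rfl⟩

lemma Hk_upd {d : ℕ} (U : Fin d → S d) (k : Fin d) (u : S d) :
    Hk (Function.update U k u) k = Hk U k := by
  unfold Hk
  congr 2
  refine Finset.image_congr fun j hj => ?_
  rw [Function.update_of_ne (Finset.ne_of_mem_erase hj)]

/-- generic position -/
def Gen {d : ℕ} (U : Fin d → S d) (y : E d) : Prop :=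
  ∀ k : Fin d, (¬ ∃ c : Fin d → ℝ, c k = 0 ∧ (U k : E d) = ∑ i, c i • (U i : E d)) ∧
    (¬ ∃ c : Fin d → ℝ, c k = 0 ∧ y = ∑ i, c i • (U i : E d))

lemma ae_Gen {d : ℕ} (hd : 1 ≤ d) :
    ∀ᵐ p ∂((lawU d).prod (unif d)), Gen p.1 (p.2 : E d) := by
  have hP := unif_prob hd
  have hL := lawU_prob hd
  unfold Gen
  rw [ae_all_iff]
  intro k
  have hAk : IsClosed {c : Fin d → ℝ | c k = 0} :=
    isClosed_eq (continuous_apply k) continuous_const
  have hrep := meas_rep hAk
  refine Filter.Eventually.and ?_ ?_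
  · -- the `k`-th vector
    have hB : MeasurableSet {U : Fin d → S d | ∃ c ∈ {c : Fin d → ℝ | c k = 0},
        (U k : E d) = ∑ i, c i • (U i : E d)} :=
      hrep.preimage (f := fun U : Fin d → S d => (U, (U k : E d)))
        (measurable_id.prodMk (measurable_subtype_coe.comp (measurable_pi_apply k)))
    have h0 : lawU d {U : Fin d → S d | ∃ c ∈ {c : Fin d → ℝ | c k = 0},
        (U k : E d) = ∑ i, c i • (U i : E d)} = 0 := by
      rw [← (upd_map hd k).measure_preimage hB.nullMeasurableSet,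
        Measure.measure_prod_null ((upd_map hd k).measurable hB)]
      refine Eventually.of_forall fun U => ?_
      simp only [Pi.zero_apply]
      refine measure_mono_null ?_ (unif_submodule (Hk U k) (Hk_ne_top hd U k))
      rintro u ⟨c, hc, h⟩
      simp only [Function.update_self] at h
      have h2 := mem_Hk (Function.update U k u) k (c := c) hc
      rw [← h, Hk_upd] at h2
      exact h2
    have h1 : ∀ᵐ U ∂(lawU d), ¬ ∃ c : Fin d → ℝ, c k = 0 ∧ (U k : E d) = ∑ i, c i • (U i : E d) := by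
      rw [ae_iff]
      simp only [not_not]
      exact h0
    exact Measure.quasiMeasurePreserving_fst.ae h1
  · have hB : MeasurableSet {p : (Fin d → S d) × S d | ∃ c ∈ {c : Fin d → ℝ | c k = 0},
        (p.2 : E d) = ∑ i, c i • (p.1 i : E d)} :=
      hrep.preimage (f := fun p : (Fin d → S d) × S d => (p.1, (p.2 : E d)))
        (measurable_fst.prodMk (measurable_subtype_coe.comp measurable_snd))
    rw [ae_iff]
    simp only [not_not]
    have h0 : ((lawU d).prod (unif d)) {p : (Fin d → S d) × S d | ∃ c ∈ {c : Fin d → ℝ | c k = 0},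
        (p.2 : E d) = ∑ i, c i • (p.1 i : E d)} = 0 := by
      rw [Measure.measure_prod_null hB]
      refine Eventually.of_forall fun U => ?_
      simp only [Pi.zero_apply]
      refine measure_mono_null ?_ (unif_submodule (Hk U k) (Hk_ne_top hd U k))
      rintro u ⟨c, hc, h⟩
      have h2 := mem_Hk U k (c := c) hc
      change (u : E d) ∈ Hk U k
      have h' : (u : E d) = ∑ i, c i • (U i : E d) := h
      rw [h']
      exact h2
    exact h0

lemma Gen.indep {d : ℕ} {U : Fin d → S d} {y : E d} (h : Gen U y) :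
    LinearIndependent ℝ (fun i => (U i : E d)) := by
  rw [Fintype.linearIndependent_iff]
  intro g hg k
  by_contra hk
  refine (h k).1 ⟨fun j => if j = k then 0 else -(g j / g k), by simp, ?_⟩
  have h1 : g k • (U k : E d) + ∑ j ∈ Finset.univ.erase k, g j • (U j : E d) = 0 := by
    rw [Finset.add_sum_erase _ (fun j => g j • (U j : E d)) (Finset.mem_univ k)]; exact hg
  have h2 : (U k : E d) = -((g k)⁻¹ • ∑ j ∈ Finset.univ.erase k, g j • (U j : E d)) := by
    have h3 : g k • (U k : E d) = -∑ j ∈ Finset.univ.erase k, g j • (U j : E d) :=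
      eq_neg_of_add_eq_zero_left h1
    rw [← smul_neg, ← h3, smul_smul, inv_mul_cancel₀ hk, one_smul]
  rw [← Finset.add_sum_erase _ _ (Finset.mem_univ k)]
  simp only [if_true, zero_smul, zero_add]
  have h4 : ∑ x ∈ Finset.univ.erase k, (if x = k then (0 : ℝ) else -(g x / g k)) • (U x : E d)
      = -((g k)⁻¹ • ∑ j ∈ Finset.univ.erase k, g j • (U j : E d)) := by
    rw [Finset.smul_sum, ← Finset.sum_neg_distrib]
    refine Finset.sum_congr rfl fun j hj => ?_
    rw [if_neg (Finset.ne_of_mem_erase hj), smul_smul, ← neg_smul]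
    congr 1
    field_simp
  rw [h4]
  exact h2

lemma Gen.exists_coef {d : ℕ} {U : Fin d → S d} {y : E d} (h : Gen U y) :
    ∃ l : Fin d → ℝ, y = ∑ i, l i • (U i : E d) ∧ ∀ k, l k ≠ 0 := by
  have hspan : Submodule.span ℝ (range (fun i => (U i : E d))) = ⊤ :=
    h.indep.span_eq_top_of_card_eq_finrank' (by rw [Fintype.card_fin, finrank_E])
  have hy : y ∈ Submodule.span ℝ (range (fun i => (U i : E d))) := by rw [hspan]; trivial
  obtain ⟨l, hl⟩ := (Submodule.mem_span_range_iff_exists_fun ℝ).1 hy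
  exact ⟨l, hl.symm, fun k hk => (h k).2 ⟨l, hk, hl.symm⟩⟩

lemma coef_unique {d : ℕ} {U : Fin d → S d} (h : LinearIndependent ℝ (fun i => (U i : E d)))
    {a b : Fin d → ℝ} (hab : ∑ i, a i • (U i : E d) = ∑ i, b i • (U i : E d)) : a = b := by
  rw [Fintype.linearIndependent_iff] at h
  have h1 : ∑ i, (a i - b i) • (U i : E d) = 0 := by
    simp only [sub_smul, Finset.sum_sub_distrib, hab, sub_self]
  funext i
  have := h _ h1 i
  linarith

/-- value of a sign -/
def sg (s : ℤˣ) : ℝ := ((s : ℤ) : ℝ)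

lemma sg_one : sg 1 = 1 := by simp [sg]
lemma sg_neg_one : sg (-1) = -1 := by simp [sg]
lemma sg_sq (s : ℤˣ) : sg s * sg s = 1 := by
  rcases Int.units_eq_one_or s with h | h <;> rw [h]
  · rw [sg_one, one_mul]
  · rw [sg_neg_one]; norm_num

/-- the sign of a real number, as a unit of `ℤ` -/
noncomputable def sgn (x : ℝ) : ℤˣ := if 0 ≤ x then 1 else -1

lemma sg_sgn {x : ℝ} (hx : x ≠ 0) : sg (sgn x) = Real.sign x := by
  unfold sgn
  by_cases h : 0 ≤ x
  · rw [if_pos h, sg_one, Real.sign_of_pos (lt_of_le_of_ne h hx.symm)]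
  · rw [if_neg h, sg_neg_one, Real.sign_of_neg (not_le.1 h)]

/-- the flipped vectors -/
noncomputable def act {d : ℕ} (s : Fin d → ℤˣ) (U : Fin d → S d) : Fin d → S d :=
  fun i => if s i = 1 then U i else -U i

lemma act_coe {d : ℕ} (s : Fin d → ℤˣ) (U : Fin d → S d) (i : Fin d) :
    (act s U i : E d) = sg (s i) • (U i : E d) := by
  unfold act
  rcases Int.units_eq_one_or (s i) with h | h
  · rw [if_pos h, h, sg_one, one_smul]
  · rw [if_neg (by rw [h]; decide), h, sg_neg_one, neg_smul, one_smul]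
    rfl

open Classical in
/-- indicator of `y ∈ pos (s U)` -/
noncomputable def ind {d : ℕ} (s : Fin d → ℤˣ) (U : Fin d → S d) (y : E d) : ℝ :=
  if y ∈ pos (fun i => (act s U i : E d)) then 1 else 0

lemma mem_pos_iff {d : ℕ} {U : Fin d → S d} {y : E d} {l : Fin d → ℝ}
    (h : LinearIndependent ℝ (fun i => (U i : E d))) (hy : y = ∑ i, l i • (U i : E d))
    (hl : ∀ k, l k ≠ 0) (s : Fin d → ℤˣ) :
    y ∈ pos (fun i => (act s U i : E d)) ↔ s = fun i => sgn (l i) := by
  unfold pos
  constructor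
  · rintro ⟨c, hc, h2⟩
    have h3 : ∑ i, l i • (U i : E d) = ∑ i, (c i * sg (s i)) • (U i : E d) := by
      rw [← hy, h2]
      refine Finset.sum_congr rfl fun i _ => ?_
      change c i • (act s U i : E d) = _
      rw [act_coe, smul_smul]
    have h4 := coef_unique h h3
    funext i
    have h5 : l i = c i * sg (s i) := congrFun h4 i
    have hci : 0 < c i := lt_of_le_of_ne (hc i) (fun h0 => hl i (by rw [h5, ← h0, zero_mul]))
    unfold sgn
    rcases Int.units_eq_one_or (s i) with hs | hs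
    · rw [hs, sg_one] at h5
      rw [if_pos (by rw [h5]; linarith), hs]
    · rw [hs, sg_neg_one] at h5
      rw [if_neg (by rw [h5]; linarith), hs]
  · intro hs
    refine ⟨fun i => |l i|, fun i => abs_nonneg _, ?_⟩
    rw [hy]
    refine Finset.sum_congr rfl fun i _ => ?_
    change _ = |l i| • (act s U i : E d)
    rw [act_coe, smul_smul, hs]
    congr 1
    simp only [sgn]
    by_cases h0 : 0 ≤ l i
    · rw [if_pos h0, sg_one, abs_of_nonneg h0, mul_one]
    · rw [if_neg h0, sg_neg_one, abs_of_neg (not_le.1 h0)]; ring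

lemma sum_ind {d : ℕ} {U : Fin d → S d} {y : E d} {l : Fin d → ℝ}
    (h : LinearIndependent ℝ (fun i => (U i : E d))) (hy : y = ∑ i, l i • (U i : E d))
    (hl : ∀ k, l k ≠ 0) (F : (Fin d → ℤˣ) → ℝ) :
    ∑ s, ind s U y * F s = F (fun i => sgn (l i)) := by
  rw [Finset.sum_eq_single (fun i => sgn (l i))]
  · unfold ind
    rw [if_pos ((mem_pos_iff h hy hl _).2 rfl), one_mul]
  · intro s _ hs
    unfold ind
    rw [if_neg (fun hc => hs ((mem_pos_iff h hy hl s).1 hc)), zero_mul]
  · intro hn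
    exact absurd (Finset.mem_univ _) hn

lemma sign_rel {a b x y : ℝ} (ha : a ≠ 0) (hb : b ≠ 0) (hx : x ≠ 0) (h : a * x + b * y = 0) :
    Real.sign a * Real.sign b = -(Real.sign x * Real.sign y) := by
  have hy : y ≠ 0 := by
    intro hy
    rw [hy, mul_zero, add_zero] at h
    exact (mul_ne_zero ha hx) h
  rcases lt_or_gt_of_ne ha with ha' | ha' <;> rcases lt_or_gt_of_ne hb with hb' | hb' <;>
    rcases lt_or_gt_of_ne hx with hx' | hx' <;> rcases lt_or_gt_of_ne hy with hy' | hy' <;>
    first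
    | (simp only [Real.sign_of_neg, Real.sign_of_pos, ha', hb', hx', hy']; norm_num; done)
    | (exfalso; nlinarith [mul_pos_of_neg_of_neg ha' hx', mul_pos_of_neg_of_neg hb' hy'])
    | (exfalso; nlinarith [mul_pos ha' hx', mul_pos_of_neg_of_neg hb' hy'])
    | (exfalso; nlinarith [mul_pos_of_neg_of_neg ha' hx', mul_pos hb' hy'])
    | (exfalso; nlinarith [mul_pos ha' hx', mul_pos hb' hy'])
    | (exfalso; nlinarith [mul_neg_of_neg_of_pos ha' hx', mul_neg_of_neg_of_pos hb' hy'])
    | (exfalso; nlinarith [mul_neg_of_pos_of_neg ha' hx', mul_neg_of_neg_of_pos hb' hy'])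
    | (exfalso; nlinarith [mul_neg_of_neg_of_pos ha' hx', mul_neg_of_pos_of_neg hb' hy'])
    | (exfalso; nlinarith [mul_neg_of_pos_of_neg ha' hx', mul_neg_of_pos_of_neg hb' hy'])

/-- the pair interaction -/
noncomputable def gij {d : ℕ} (i j : Fin d) (U : Fin d → S d) (y : E d) : ℝ :=
  (∑ s, ind s U y * (sg (s i) * sg (s j))) * ⟪(U i : E d), (U j : E d)⟫

/-- a unit vector orthogonal to everything but `U i`, `U j` -/
lemma exists_nu {d : ℕ} (U : Fin d → S d) (y : E d) {i j : Fin d} (hij : i ≠ j) :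
    ∃ ν : E d, ‖ν‖ = 1 ∧ ⟪ν, y⟫ = 0 ∧ ∀ k, k ≠ i → k ≠ j → ⟪ν, (U k : E d)⟫ = 0 := by
  set K : Submodule ℝ (E d) := Submodule.span ℝ
    ((insert y (((Finset.univ.erase i).erase j).image (fun k => (U k : E d))) : Finset (E d)))
    with hK
  have hne : K ≠ ⊤ := by
    intro h
    have h1 := finrank_span_finset_le_card (R := ℝ)
      (insert y (((Finset.univ.erase i).erase j).image (fun k => (U k : E d))))
    have h2 : Module.finrank ℝ K ≤
      (insert y (((Finset.univ.erase i).erase j).image (fun k => (U k : E d)))).card := h1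
    rw [h, finrank_top, finrank_E] at h2
    have h3 := Finset.card_insert_le y (((Finset.univ.erase i).erase j).image
      (fun k => (U k : E d)))
    have h4 := Finset.card_image_le (s := (Finset.univ.erase i).erase j)
      (f := fun k => (U k : E d))
    rw [Finset.card_erase_of_mem (Finset.mem_erase.2 ⟨hij.symm, Finset.mem_univ j⟩),
      Finset.card_erase_of_mem (Finset.mem_univ i), Finset.card_univ, Fintype.card_fin] at h4
    have h5 : 1 < d := by
      have := i.2
      have := j.2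
      have : (i : ℕ) ≠ j := fun h => hij (Fin.ext h)
      omega
    omega
  have hperp : Kᗮ ≠ ⊥ := by
    intro h
    exact hne (Submodule.orthogonal_eq_bot_iff.1 h)
  obtain ⟨w, hw, hw0⟩ := Submodule.exists_mem_ne_zero_of_ne_bot hperp
  have hwn : ‖w‖ ≠ 0 := norm_ne_zero_iff.2 hw0
  have hin : ∀ x ∈ K, ⟪(‖w‖⁻¹ : ℝ) • w, x⟫ = 0 := by
    intro x hx
    rw [inner_smul_left, Submodule.inner_left_of_mem_orthogonal hx hw, mul_zero]
  refine ⟨(‖w‖⁻¹ : ℝ) • w, ?_, ?_, ?_⟩
  · rw [norm_smul, norm_inv, norm_norm, inv_mul_cancel₀ hwn]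
  · exact hin _ (Submodule.subset_span (by simp))
  · intro k hki hkj
    refine hin _ (Submodule.subset_span ?_)
    rw [Finset.coe_insert, Finset.coe_image]
    exact Or.inr ⟨k, by simp [hki, hkj], rfl⟩

lemma gij_eq {d : ℕ} {U : Fin d → S d} {y ν : E d} {i j : Fin d} (hij : i ≠ j) (h : Gen U y)
    (h1 : ⟪ν, y⟫ = 0) (h2 : ∀ k, k ≠ i → k ≠ j → ⟪ν, (U k : E d)⟫ = 0)
    (h3 : ⟪ν, (U i : E d)⟫ ≠ 0) :
    gij i j U y = -(Real.sign ⟪ν, (U i : E d)⟫ * Real.sign ⟪ν, (U j : E d)⟫ *
      ⟪(U i : E d), (U j : E d)⟫) := by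
  obtain ⟨l, hy, hl⟩ := h.exists_coef
  unfold gij
  rw [sum_ind h.indep hy hl (fun s => sg (s i) * sg (s j)), sg_sgn (hl i), sg_sgn (hl j)]
  have h4 : l i * ⟪ν, (U i : E d)⟫ + l j * ⟪ν, (U j : E d)⟫ = 0 := by
    rw [hy, inner_sum, ← Finset.add_sum_erase _ _ (Finset.mem_univ i),
      ← Finset.add_sum_erase _ _ (Finset.mem_erase.2 ⟨hij.symm, Finset.mem_univ j⟩)] at h1
    rw [Finset.sum_eq_zero, add_zero, inner_smul_right, inner_smul_right] at h1
    · exact h1
    · intro k hk
      rw [Finset.mem_erase, Finset.mem_erase] at hk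
      rw [inner_smul_right, h2 k hk.2.1 hk.1, mul_zero]
  rw [sign_rel (hl i) (hl j) h3 h4]
  ring

/-! ### The key inequality -/

lemma onSphere_neg {d : ℕ} (u : S d) : onSphere (LinearIsometryEquiv.neg ℝ) u = -u := by
  apply Subtype.ext
  simp [onSphere]

lemma neg_mp (d : ℕ) : MeasurePreserving (fun u : S d => -u) (unif d) (unif d) := by
  have h := unif_map (d := d) (LinearIsometryEquiv.neg ℝ)
  have h2 : (onSphere (LinearIsometryEquiv.neg ℝ) : S d → S d) = fun u => -u := by
    funext u; exact onSphere_neg u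
  rwa [h2] at h

lemma act_mp {d : ℕ} (hd : 1 ≤ d) (s : Fin d → ℤˣ) :
    MeasurePreserving (act s) (lawU d) (lawU d) := by
  have hP := unif_prob hd
  have h : ∀ i : Fin d, MeasurePreserving (fun u : S d => if s i = 1 then u else -u)
      (unif d) (unif d) := by
    intro i
    by_cases hi : s i = 1
    · simp only [hi, if_true]; exact MeasurePreserving.id _
    · simp only [hi, if_false]; exact neg_mp d
  exact measurePreserving_pi (fun _ => unif d) (fun _ => unif d) h

lemma measurable_act {d : ℕ} (hd : 1 ≤ d) (s : Fin d → ℤˣ) :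
    Measurable (act s : (Fin d → S d) → _) := (act_mp hd s).measurable

lemma act_one {d : ℕ} (U : Fin d → S d) : act 1 U = U := by
  funext i
  simp [act]

lemma measSet_pos {d : ℕ} : MeasurableSet {p : (Fin d → S d) × E d |
    p.2 ∈ pos (fun i => (p.1 i : E d))} := by
  have hA : IsClosed {c : Fin d → ℝ | ∀ i, 0 ≤ c i} := by
    rw [ofPred_forall]
    exact isClosed_iInter fun i => isClosed_le continuous_const (continuous_apply i)
  exact meas_rep hA

lemma measurable_ind {d : ℕ} (hd : 1 ≤ d) (s : Fin d → ℤˣ) :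
    Measurable (fun p : (Fin d → S d) × S d => ind s p.1 (p.2 : E d)) := by
  unfold ind
  refine Measurable.ite ?_ measurable_const measurable_const
  exact measSet_pos.preimage (f := fun p : (Fin d → S d) × S d => (act s p.1, (p.2 : E d)))
    (((measurable_act hd s).comp measurable_fst).prodMk
      (measurable_subtype_coe.comp measurable_snd))

lemma ind_nonneg {d : ℕ} (s : Fin d → ℤˣ) (U : Fin d → S d) (y : E d) : 0 ≤ ind s U y := by
  unfold ind; split_ifs <;> norm_num

lemma ind_le {d : ℕ} (s : Fin d → ℤˣ) (U : Fin d → S d) (y : E d) : ind s U y ≤ 1 := by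
  unfold ind; split_ifs <;> norm_num

/-- the angle as an integral -/
lemma alpha_eq {d : ℕ} (hd : 1 ≤ d) (U : Fin d → S d) :
    alpha U = ∫ y : S d, ind 1 U (y : E d) ∂(unif d) := by
  have hP := unif_prob hd
  unfold alpha solidAngle
  have hm : MeasurableSet {u : S d | (u : E d) ∈ pos fun i => (U i : E d)} :=
    measSet_pos.preimage (f := fun u : S d => (U, (u : E d)))
      (measurable_const.prodMk measurable_subtype_coe)
  rw [← integral_indicator_one hm]
  congr 1

lemma measurable_alpha {d : ℕ} (hd : 1 ≤ d) : Measurable (alpha : (Fin d → S d) → ℝ) := by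
  have hP := unif_prob hd
  have h : (alpha : (Fin d → S d) → ℝ) = fun U => ∫ y : S d, ind 1 U (y : E d) ∂(unif d) := by
    funext U; exact alpha_eq hd U
  rw [h]
  exact ((measurable_ind hd 1).stronglyMeasurable.integral_prod_right).measurable

/-- the test statistic -/
noncomputable def T {d : ℕ} (U : Fin d → S d) : ℝ := ‖∑ i, (U i : E d)‖ ^ 2 / d

lemma T_continuous (d : ℕ) : Continuous (T : (Fin d → S d) → ℝ) := by
  unfold T
  refine Continuous.div_const (Continuous.pow (Continuous.norm ?_) 2) _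
  exact continuous_finsetSum _ fun i _ => continuous_subtype_val.comp (continuous_apply i)

lemma T_nonneg {d : ℕ} (U : Fin d → S d) : 0 ≤ T U := by unfold T; positivity

lemma norm_S {d : ℕ} (u : S d) : ‖(u : E d)‖ = 1 := mem_sphere_zero_iff_norm.1 u.2

lemma T_le {d : ℕ} (U : Fin d → S d) : T U ≤ d := by
  unfold T
  have h1 : ‖∑ i, (U i : E d)‖ ≤ d := by
    refine (norm_sum_le _ _).trans ?_
    simp
  rcases Nat.eq_zero_or_pos d with h | h
  · subst h; simp
  · have hd' : (0 : ℝ) < d := by exact_mod_cast h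
    rw [div_le_iff₀ hd']
    nlinarith [norm_nonneg (∑ i, (U i : E d))]

lemma T_act {d : ℕ} (hd : 1 ≤ d) (s : Fin d → ℤˣ) (U : Fin d → S d) :
    T (act s U) = 1 + (∑ i, ∑ j ∈ Finset.univ.erase i,
      sg (s i) * sg (s j) * ⟪(U i : E d), (U j : E d)⟫) / d := by
  have hd' : (0 : ℝ) < d := by exact_mod_cast hd
  unfold T
  rw [← real_inner_self_eq_norm_sq, sum_inner]
  have h1 : ∀ i : Fin d, ⟪(act s U i : E d), ∑ j, (act s U j : E d)⟫
      = 1 + ∑ j ∈ Finset.univ.erase i, sg (s i) * sg (s j) * ⟪(U i : E d), (U j : E d)⟫ := by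
    intro i
    rw [inner_sum, ← Finset.add_sum_erase _ _ (Finset.mem_univ i)]
    congr 1
    · rw [real_inner_self_eq_norm_sq, norm_S]; norm_num
    · refine Finset.sum_congr rfl fun j _ => ?_
      rw [act_coe, act_coe, inner_smul_left, inner_smul_right]
      simp only [conj_trivial]
      ring
  simp only [h1, Finset.sum_add_distrib]
  simp only [Finset.sum_const, Finset.card_univ, Fintype.card_fin, nsmul_eq_mul, mul_one]
  field_simp

/-- the summed test statistic, at generic points -/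
lemma sum_ind_T {d : ℕ} (hd : 1 ≤ d) {U : Fin d → S d} {y : E d} (h : Gen U y) :
    ∑ s, ind s U y * T (act s U) = 1 + (∑ i, ∑ j ∈ Finset.univ.erase i, gij i j U y) / d := by
  obtain ⟨l, hy, hl⟩ := h.exists_coef
  rw [sum_ind h.indep hy hl (fun s => T (act s U)), T_act hd]
  congr 2
  refine Finset.sum_congr rfl fun i _ => Finset.sum_congr rfl fun j _ => ?_
  unfold gij
  rw [sum_ind h.indep hy hl (fun s => sg (s i) * sg (s j))]

lemma measurable_gij {d : ℕ} (hd : 1 ≤ d) (i j : Fin d) :
    Measurable (fun p : (Fin d → S d) × S d => gij i j p.1 (p.2 : E d)) := by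
  unfold gij
  refine Measurable.mul (Finset.measurable_sum _ fun s _ =>
    (measurable_ind hd s).mul_const _) ?_
  have : Continuous (fun p : (Fin d → S d) × S d => ⟪(p.1 i : E d), (p.1 j : E d)⟫) := by
    fun_prop
  exact this.measurable

lemma sg_abs (s : ℤˣ) : |sg s| = 1 := by
  rcases Int.units_eq_one_or s with h | h <;> rw [h]
  · rw [sg_one, abs_one]
  · rw [sg_neg_one, abs_neg, abs_one]

lemma gij_bound {d : ℕ} (i j : Fin d) (U : Fin d → S d) (y : E d) :
    ‖gij i j U y‖ ≤ (2 : ℝ) ^ d := by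
  unfold gij
  rw [norm_mul]
  have h1 : ‖⟪(U i : E d), (U j : E d)⟫‖ ≤ 1 := by
    have := norm_inner_le_norm (𝕜 := ℝ) (U i : E d) (U j : E d)
    rwa [norm_S, norm_S, one_mul] at this
  have h2 : ‖∑ s, ind s U y * (sg (s i) * sg (s j))‖ ≤ (2 : ℝ) ^ d := by
    refine (norm_sum_le _ _).trans ?_
    have h3 : ∀ s ∈ (Finset.univ : Finset (Fin d → ℤˣ)),
        ‖ind s U y * (sg (s i) * sg (s j))‖ ≤ 1 := by
      intro s _
      rw [norm_mul, norm_mul, Real.norm_eq_abs, Real.norm_eq_abs, Real.norm_eq_abs, sg_abs, sg_abs,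
        abs_of_nonneg (ind_nonneg s U y)]
      have := ind_le s U y
      linarith
    refine (Finset.sum_le_sum h3).trans ?_
    simp
  calc _ ≤ (2 : ℝ) ^ d * 1 := mul_le_mul h2 h1 (norm_nonneg _) (by positivity)
    _ = _ := mul_one _

lemma integrable_gij {d : ℕ} (hd : 1 ≤ d) (i j : Fin d) :
    Integrable (fun p : (Fin d → S d) × S d => gij i j p.1 (p.2 : E d))
      ((lawU d).prod (unif d)) := by
  have hP := unif_prob hd
  have hL := lawU_prob hd
  exact Integrable.of_bound (measurable_gij hd i j).aestronglyMeasurable ((2 : ℝ) ^ d)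
    (Eventually.of_forall fun p => gij_bound i j _ _)

/-- the two-vector average -/
lemma pair_int {d : ℕ} (hd : 1 ≤ d) {ν : E d} (hν : ‖ν‖ = 1) :
    ∫ u : S d, ∫ v : S d, -(Real.sign ⟪ν, (u : E d)⟫ * Real.sign ⟪ν, (v : E d)⟫ *
      ⟪(u : E d), (v : E d)⟫) ∂(unif d) ∂(unif d) ≤ -(1 / (3 * (d : ℝ))) := by
  have hP := unif_prob hd
  have hsm : Measurable Real.sign := by
    unfold Real.sign
    exact Measurable.ite measurableSet_Iio measurable_const
      (Measurable.ite measurableSet_Ioi measurable_const measurable_const)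
  have hsb : ∀ x : ℝ, |Real.sign x| ≤ 1 := by
    intro x
    rcases Real.sign_apply_eq x with h | h | h <;> rw [h] <;> norm_num
  set g : S d → E d := fun v => Real.sign ⟪ν, (v : E d)⟫ • (v : E d) with hg
  have hgm : Measurable g := by
    refine Measurable.smul (hsm.comp ?_) measurable_subtype_coe
    have : Continuous (fun v : S d => ⟪ν, (v : E d)⟫) := by fun_prop
    exact this.measurable
  have hgi : Integrable g (unif d) := by
    refine Integrable.of_bound hgm.aestronglyMeasurable 1 (Eventually.of_forall fun v => ?_)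
    rw [hg]
    simp only [norm_smul, norm_S, mul_one]
    exact hsb _
  set w : E d := ∫ v, g v ∂(unif d) with hw
  have h1 : ∀ u : S d, ∫ v : S d, -(Real.sign ⟪ν, (u : E d)⟫ * Real.sign ⟪ν, (v : E d)⟫ *
      ⟪(u : E d), (v : E d)⟫) ∂(unif d) = -⟪g u, w⟫ := by
    intro u
    rw [integral_neg, hw, ← integral_inner hgi]
    congr 2
    funext v
    rw [hg]
    simp only [inner_smul_left, inner_smul_right, conj_trivial]
    ring
  simp only [h1]
  rw [integral_neg]
  have h2 : ∫ u, ⟪g u, w⟫ ∂(unif d) = ⟪w, w⟫ := by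
    have := integral_inner (𝕜 := ℝ) hgi w
    rw [← hw] at this
    rw [← this]
    congr 1
    funext u
    exact real_inner_comm _ _
  rw [h2, neg_le_neg_iff, real_inner_self_eq_norm_sq]
  have h3 : ∫ u : S d, |⟪ν, (u : E d)⟫| ∂(unif d) = ⟪ν, w⟫ := by
    rw [hw, ← integral_inner hgi]
    congr 1
    funext u
    rw [hg]
    simp only [inner_smul_right]
    rcases lt_trichotomy ⟪ν, (u : E d)⟫ 0 with h | h | h
    · rw [Real.sign_of_neg h, abs_of_neg h]; ring
    · rw [h]; simp
    · rw [Real.sign_of_pos h, abs_of_pos h]; ring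
  have h4 : ⟪ν, w⟫ ≤ ‖w‖ := by
    have := real_inner_le_norm ν w
    rwa [hν, one_mul] at this
  have h5 := abs_moment hd hν
  have h6 : 0 ≤ ∫ u : S d, |⟪ν, (u : E d)⟫| ∂(unif d) := integral_nonneg fun u => abs_nonneg _
  calc 1 / (3 * (d : ℝ)) ≤ _ := h5
    _ ≤ ‖w‖ ^ 2 := by
      rw [h3] at h6 ⊢
      exact pow_le_pow_left₀ h6 h4 2

lemma ker_ne_top {d : ℕ} {ν : E d} (hν : ‖ν‖ = 1) : (ℝ ∙ ν)ᗮ ≠ ⊤ := by
  intro h
  have : ν ∈ (ℝ ∙ ν)ᗮ := by rw [h]; trivial
  rw [Submodule.mem_orthogonal_singleton_iff_inner_right, real_inner_self_eq_norm_sq, hν] at this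
  norm_num at this

lemma ae_inner_ne {d : ℕ} {ν : E d} (hν : ‖ν‖ = 1) :
    ∀ᵐ u : S d ∂(unif d), ⟪ν, (u : E d)⟫ ≠ 0 := by
  rw [ae_iff]
  have h := unif_submodule (ℝ ∙ ν)ᗮ (ker_ne_top hν)
  refine measure_mono_null (fun u hu => ?_) h
  simp only [not_not] at hu
  change (u : E d) ∈ (ℝ ∙ ν)ᗮ
  rw [Submodule.mem_orthogonal_singleton_iff_inner_right]
  exact hu

/-- the pair interaction is negative on average -/
lemma int_gij {d : ℕ} (hd : 1 ≤ d) {i j : Fin d} (hij : i ≠ j) :
    ∫ p, gij i j p.1 (p.2 : E d) ∂((lawU d).prod (unif d)) ≤ -(1 / (3 * (d : ℝ))) := by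
  have hP := unif_prob hd
  have hL := lawU_prob hd
  have hI := integrable_gij hd i j
  rw [integral_prod_symm _ hI]
  -- generic position for almost every `y`
  have hG : ∀ᵐ y : S d ∂(unif d), ∀ᵐ U ∂(lawU d), Gen U (y : E d) := by
    have h1 : ∀ᵐ z ∂((unif d).prod (lawU d)), Gen z.2 (z.1 : E d) :=
      (Measure.measurePreserving_swap (μ := unif d) (ν := lawU d)).quasiMeasurePreserving.ae
        (ae_Gen hd)
    exact Measure.ae_ae_of_ae_prod h1
  have hkey : ∀ᵐ y : S d ∂(unif d), ∫ U, gij i j U (y : E d) ∂(lawU d) ≤ -(1 / (3 * (d : ℝ))) := by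
    filter_upwards [hG] with y hy
    have hIy : Integrable (fun U => gij i j U (y : E d)) (lawU d) := by
      refine Integrable.of_bound ?_ ((2 : ℝ) ^ d)
        (Eventually.of_forall fun U => gij_bound i j _ _)
      exact ((measurable_gij hd i j).comp (measurable_id.prodMk measurable_const)).aestronglyMeasurable
    set Φ := (fun p : ((Fin d → S d) × S d) × S d =>
      Function.update (Function.update p.1.1 i p.1.2) j p.2) with hΦ
    have hmp := upd_map2 hd i j
    rw [← hΦ] at hmp
    have h2 : ∫ U, gij i j U (y : E d) ∂(lawU d) =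
        ∫ p, gij i j (Φ p) (y : E d) ∂(((lawU d).prod (unif d)).prod (unif d)) := by
      have hmm : AEStronglyMeasurable (fun U => gij i j U (y : E d))
          (Measure.map Φ (((lawU d).prod (unif d)).prod (unif d))) := by
        rw [hmp.map_eq]; exact hIy.aestronglyMeasurable
      have h3 := integral_map hmp.measurable.aemeasurable hmm
      rw [hmp.map_eq] at h3
      exact h3
    have hI2 : Integrable (fun p => gij i j (Φ p) (y : E d))
        (((lawU d).prod (unif d)).prod (unif d)) := hmp.integrable_comp_of_integrable hIy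
    rw [h2, integral_prod _ hI2, integral_prod _ hI2.integral_prod_left]
    have hG2 : ∀ᵐ p ∂(((lawU d).prod (unif d)).prod (unif d)), Gen (Φ p) (y : E d) :=
      hmp.quasiMeasurePreserving.ae hy
    have hG3 := Measure.ae_ae_of_ae_prod (Measure.ae_ae_of_ae_prod hG2)
    have hle : ∀ᵐ U ∂(lawU d), ∫ u, ∫ v, gij i j (Φ ((U, u), v)) (y : E d) ∂(unif d) ∂(unif d)
        ≤ -(1 / (3 * (d : ℝ))) := by
      filter_upwards [hG3] with U hU
      obtain ⟨ν, hν, hνy, hνk⟩ := exists_nu U (y : E d) hij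
      refine le_of_eq_of_le ?_ (pair_int hd hν)
      refine integral_congr_ae ?_
      filter_upwards [hU, ae_inner_ne hν] with u hu hu0
      refine integral_congr_ae ?_
      filter_upwards [hu] with v hv
      have hi : Φ ((U, u), v) i = u := by
        rw [hΦ]
        simp only
        rw [Function.update_of_ne hij, Function.update_self]
      have hj : Φ ((U, u), v) j = v := by
        rw [hΦ]
        simp only
        rw [Function.update_self]
      have := gij_eq (ν := ν) hij hv hνy (fun k hki hkj => by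
        rw [hΦ]
        simp only
        rw [Function.update_of_ne hkj, Function.update_of_ne hki]
        exact hνk k hki hkj) (by rw [hi]; exact hu0)
      rw [hi, hj] at this
      exact this
    calc _ ≤ ∫ U, -(1 / (3 * (d : ℝ))) ∂(lawU d) :=
          integral_mono_ae hI2.integral_prod_left.integral_prod_left (integrable_const _) hle
      _ = _ := by simp
  calc _ ≤ ∫ y : S d, -(1 / (3 * (d : ℝ))) ∂(unif d) :=
        integral_mono_ae hI.integral_prod_right (integrable_const _) hkey
    _ = _ := by simp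

/-- the rescaled angle -/
noncomputable def Z {d : ℕ} (U : Fin d → S d) : ℝ := 2 ^ d * alpha U

lemma Z_nonneg {d : ℕ} (U : Fin d → S d) : 0 ≤ Z U := by
  unfold Z alpha solidAngle
  positivity

lemma measurable_Z {d : ℕ} (hd : 1 ≤ d) : Measurable (Z : (Fin d → S d) → ℝ) :=
  (measurable_alpha hd).const_mul _

lemma Z_le {d : ℕ} (hd : 1 ≤ d) (U : Fin d → S d) : Z U ≤ 2 ^ d := by
  have hP := unif_prob hd
  unfold Z alpha solidAngle
  have : (unif d).real {u : S d | (u : E d) ∈ pos fun i => (U i : E d)} ≤ 1 := measureReal_le_one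
  have h2 : (0 : ℝ) < 2 ^ d := by positivity
  nlinarith

lemma integrable_F {d : ℕ} (hd : 1 ≤ d) (s : Fin d → ℤˣ) :
    Integrable (fun p : (Fin d → S d) × S d => ind s p.1 (p.2 : E d) * T (act s p.1))
      ((lawU d).prod (unif d)) := by
  have hP := unif_prob hd
  have hL := lawU_prob hd
  refine Integrable.of_bound ?_ (d : ℝ) (Eventually.of_forall fun p => ?_)
  · exact ((measurable_ind hd s).mul ((T_continuous d).measurable.comp
      ((measurable_act hd s).comp measurable_fst))).aestronglyMeasurable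
  · rw [norm_mul, Real.norm_eq_abs, Real.norm_eq_abs, abs_of_nonneg (ind_nonneg _ _ _),
      abs_of_nonneg (T_nonneg _)]
    have h1 := ind_le s p.1 (p.2 : E d)
    have h2 := T_le (act s p.1)
    have h3 := ind_nonneg s p.1 (p.2 : E d)
    have h4 := T_nonneg (act s p.1)
    nlinarith

lemma ind_act {d : ℕ} (s : Fin d → ℤˣ) (U : Fin d → S d) (y : E d) :
    ind 1 (act s U) y = ind s U y := by
  unfold ind
  rw [act_one]

/-- `E[Z T] ≤ 1 - (d-1)/(3d)` -/
lemma int_ZT {d : ℕ} (hd : 1 ≤ d) :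
    ∫ U, Z U * T U ∂(lawU d) ≤ 1 - ((d : ℝ) - 1) / (3 * d) := by
  have hP := unif_prob hd
  have hL := lawU_prob hd
  have hd' : (0 : ℝ) < d := by exact_mod_cast hd
  have h1 : ∀ s : Fin d → ℤˣ, ∫ U, alpha U * T U ∂(lawU d)
      = ∫ p, ind s p.1 (p.2 : E d) * T (act s p.1) ∂((lawU d).prod (unif d)) := by
    intro s
    rw [integral_prod _ (integrable_F hd s)]
    have h2 : ∀ U : Fin d → S d, ∫ y : S d, ind s U (y : E d) * T (act s U) ∂(unif d)
        = alpha (act s U) * T (act s U) := by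
      intro U
      rw [integral_mul_const, alpha_eq hd]
      simp only [ind_act]
    simp only [h2]
    have hm : AEStronglyMeasurable (fun U : Fin d → S d => alpha U * T U)
        (Measure.map (act s) (lawU d)) :=
      ((measurable_alpha hd).mul (T_continuous d).measurable).aestronglyMeasurable
    have h3 := integral_map (act_mp hd s).measurable.aemeasurable hm
    rw [(act_mp hd s).map_eq] at h3
    exact h3
  have h2 : ∫ U, Z U * T U ∂(lawU d) = ∑ s : Fin d → ℤˣ, ∫ U, alpha U * T U ∂(lawU d) := by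
    rw [Finset.sum_const, Finset.card_univ]
    unfold Z
    simp only [mul_assoc]
    rw [integral_const_mul]
    simp
  rw [h2, Finset.sum_congr rfl (fun s _ => h1 s), ← integral_finsetSum _
    (fun s _ => integrable_F hd s)]
  have h3 : ∫ p, ∑ s, ind s p.1 (p.2 : E d) * T (act s p.1) ∂((lawU d).prod (unif d))
      = ∫ p, (1 + (∑ i, ∑ j ∈ Finset.univ.erase i, gij i j p.1 (p.2 : E d)) / d)
        ∂((lawU d).prod (unif d)) := by
    refine integral_congr_ae ?_
    filter_upwards [ae_Gen hd] with p hp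
    exact sum_ind_T hd hp
  rw [h3]
  have hI : ∀ i : Fin d, Integrable (fun p : (Fin d → S d) × S d =>
      ∑ j ∈ Finset.univ.erase i, gij i j p.1 (p.2 : E d)) ((lawU d).prod (unif d)) := fun i =>
    integrable_finsetSum _ fun j _ => integrable_gij hd i j
  have hI2 : Integrable (fun p : (Fin d → S d) × S d =>
      ∑ i, ∑ j ∈ Finset.univ.erase i, gij i j p.1 (p.2 : E d)) ((lawU d).prod (unif d)) :=
    integrable_finsetSum _ fun i _ => hI i
  rw [integral_add (integrable_const _) (hI2.div_const _), integral_div,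
    integral_finsetSum _ (fun i _ => hI i)]
  have h4 : ∑ i : Fin d, ∫ p, ∑ j ∈ Finset.univ.erase i, gij i j p.1 (p.2 : E d)
      ∂((lawU d).prod (unif d)) ≤ ∑ i : Fin d, ∑ j ∈ Finset.univ.erase i, -(1 / (3 * (d : ℝ))) := by
    refine Finset.sum_le_sum fun i _ => ?_
    rw [integral_finsetSum _ (fun j _ => integrable_gij hd i j)]
    exact Finset.sum_le_sum fun j hj => int_gij hd (Finset.ne_of_mem_erase hj).symm
  have h5 : ∑ i : Fin d, ∑ j ∈ Finset.univ.erase i, -(1 / (3 * (d : ℝ)))
      = -(((d : ℝ) - 1) / 3) := by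
    have : ∀ i : Fin d, ∑ j ∈ Finset.univ.erase i, -(1 / (3 * (d : ℝ)))
        = ((d : ℝ) - 1) * -(1 / (3 * (d : ℝ))) := by
      intro i
      rw [Finset.sum_const, Finset.card_erase_of_mem (Finset.mem_univ i), Finset.card_univ,
        Fintype.card_fin, nsmul_eq_mul, Nat.cast_sub hd, Nat.cast_one]
    simp only [this, Finset.sum_const, Finset.card_univ, Fintype.card_fin, nsmul_eq_mul]
    field_simp
  rw [h5] at h4
  have h6 := div_le_div_of_nonneg_right h4 hd'.le
  have h7 : -(((d : ℝ) - 1) / 3) / d = -(((d : ℝ) - 1) / (3 * d)) := by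
    field_simp
  rw [h7] at h6
  have h8 : ∫ p : (Fin d → S d) × S d, (1 : ℝ) ∂((lawU d).prod (unif d)) = 1 := by simp
  rw [h8]
  linarith

/-! ### The test statistic concentrates -/

lemma int_inner {d : ℕ} (x : E d) : ∫ u : S d, ⟪x, (u : E d)⟫ ∂(unif d) = 0 := by
  have hm : AEStronglyMeasurable (fun u : S d => ⟪x, (u : E d)⟫)
      (Measure.map (fun u : S d => -u) (unif d)) := by
    have : Continuous (fun v : S d => ⟪x, (v : E d)⟫) := by fun_prop
    exact this.aestronglyMeasurable
  have h3 := integral_map (neg_mp d).measurable.aemeasurable hm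
  rw [(neg_mp d).map_eq] at h3
  have h4 : ∫ u : S d, ⟪x, ((-u : S d) : E d)⟫ ∂(unif d) = -∫ u : S d, ⟪x, (u : E d)⟫ ∂(unif d) := by
    rw [← integral_neg]
    congr 1
    funext u
    rw [← inner_neg_right]
    rfl
  rw [h4] at h3
  linarith

lemma int_inner_sq {d : ℕ} (hd : 1 ≤ d) (x : E d) :
    ∫ u : S d, ⟪x, (u : E d)⟫ ^ 2 ∂(unif d) = ‖x‖ ^ 2 / d := by
  by_cases hx : x = 0
  · subst hx; simp
  have hn : ‖x‖ ≠ 0 := norm_ne_zero_iff.2 hx
  have h1 : ‖(‖x‖⁻¹ : ℝ) • x‖ = 1 := by
    rw [norm_smul, norm_inv, norm_norm, inv_mul_cancel₀ hn]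
  have h2 := m2_eq hd h1
  unfold m2 at h2
  have h3 : ∀ u : S d, ⟪(‖x‖⁻¹ : ℝ) • x, (u : E d)⟫ ^ 2 = (‖x‖⁻¹) ^ 2 * ⟪x, (u : E d)⟫ ^ 2 := by
    intro u
    rw [inner_smul_left]
    simp only [conj_trivial]
    ring
  simp only [h3] at h2
  rw [integral_const_mul] at h2
  field_simp at h2
  field_simp
  linarith

lemma norm_add_sq' {d : ℕ} (x : E d) (u : S d) :
    ‖x + (u : E d)‖ ^ 2 = ‖x‖ ^ 2 + 1 + 2 * ⟪x, (u : E d)⟫ := by
  rw [norm_add_sq_real, norm_S]; ring

lemma inner2 {d : ℕ} (hd : 1 ≤ d) (x : E d) :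
    ∫ u : S d, ‖x + (u : E d)‖ ^ 2 ∂(unif d) = ‖x‖ ^ 2 + 1 := by
  have hP := unif_prob hd
  simp only [norm_add_sq']
  rw [integral_add (integrable_const _) (cont_int (by fun_prop)), integral_const_mul, int_inner]
  simp

lemma inner4 {d : ℕ} (hd : 1 ≤ d) (x : E d) :
    ∫ u : S d, ‖x + (u : E d)‖ ^ 4 ∂(unif d) = ‖x‖ ^ 4 + (2 + 4 / d) * ‖x‖ ^ 2 + 1 := by
  have hP := unif_prob hd
  have h : ∀ u : S d, ‖x + (u : E d)‖ ^ 4 = (‖x‖ ^ 2 + 1) ^ 2 +
      ((4 * (‖x‖ ^ 2 + 1)) * ⟪x, (u : E d)⟫ + 4 * ⟪x, (u : E d)⟫ ^ 2) := by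
    intro u
    rw [show (4 : ℕ) = 2 * 2 by norm_num, pow_mul, norm_add_sq']
    ring
  simp only [h]
  rw [integral_add (integrable_const _) (cont_int (by fun_prop)),
    integral_add (cont_int (by fun_prop)) (cont_int (by fun_prop)), integral_const_mul,
    integral_const_mul, int_inner, int_inner_sq hd]
  simp only [integral_const, probReal_univ, smul_eq_mul]
  ring

/-- sums over a finset -/
noncomputable def SA {d : ℕ} (A : Finset (Fin d)) (U : Fin d → S d) : E d := ∑ i ∈ A, (U i : E d)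

lemma SA_cont {d : ℕ} (A : Finset (Fin d)) : Continuous (SA A : (Fin d → S d) → E d) := by
  unfold SA
  exact continuous_finsetSum _ fun i _ => continuous_subtype_val.comp (continuous_apply i)

lemma SA_upd {d : ℕ} {A : Finset (Fin d)} {k : Fin d} (hk : k ∉ A) (U : Fin d → S d) (u : S d) :
    SA (insert k A) (Function.update U k u) = SA A U + (u : E d) := by
  unfold SA
  rw [Finset.sum_insert hk, Function.update_self, add_comm]
  congr 1
  refine Finset.sum_congr rfl fun i hi => ?_
  rw [Function.update_of_ne (fun h => hk (by rw [← h]; exact hi))]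

lemma SA_norm_le {d : ℕ} (A : Finset (Fin d)) (U : Fin d → S d) : ‖SA A U‖ ≤ d := by
  unfold SA
  refine (norm_sum_le _ _).trans ?_
  simp only [norm_S, Finset.sum_const, nsmul_eq_mul, mul_one]
  exact_mod_cast (Finset.card_le_univ A).trans (by simp)

lemma int_SA_pow {d : ℕ} (hd : 1 ≤ d) (A : Finset (Fin d)) (n : ℕ) :
    Integrable (fun U => ‖SA A U‖ ^ n) (lawU d) := by
  have hL := lawU_prob hd
  refine Integrable.of_bound (((SA_cont A).norm.pow n).measurable.aestronglyMeasurable)
    ((d : ℝ) ^ n) (Eventually.of_forall fun U => ?_)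
  rw [norm_pow, norm_norm]
  exact pow_le_pow_left₀ (norm_nonneg _) (SA_norm_le A U) n

lemma step_int {d : ℕ} (hd : 1 ≤ d) {A : Finset (Fin d)} {k : Fin d} (hk : k ∉ A) (n : ℕ) :
    ∫ U, ‖SA (insert k A) U‖ ^ n ∂(lawU d)
      = ∫ U, ∫ u : S d, ‖SA A U + (u : E d)‖ ^ n ∂(unif d) ∂(lawU d) := by
  have hP := unif_prob hd
  have hL := lawU_prob hd
  have hmp := upd_map hd k
  have hI := int_SA_pow hd (insert k A) n
  have hI2 := hmp.integrable_comp_of_integrable hI
  have hm : AEStronglyMeasurable (fun U => ‖SA (insert k A) U‖ ^ n)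
      (Measure.map (fun p : (Fin d → S d) × S d => Function.update p.1 k p.2)
        ((lawU d).prod (unif d))) := by
    rw [hmp.map_eq]; exact hI.aestronglyMeasurable
  have h3 := integral_map hmp.measurable.aemeasurable hm
  rw [hmp.map_eq] at h3
  rw [h3]
  have h4 := integral_prod _ hI2
  refine h4.trans ?_
  congr 1
  funext U
  congr 1
  funext u
  simp only [Function.comp]
  rw [SA_upd hk]

lemma E2 {d : ℕ} (hd : 1 ≤ d) (A : Finset (Fin d)) :
    ∫ U, ‖SA A U‖ ^ 2 ∂(lawU d) = A.card := by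
  have hL := lawU_prob hd
  induction A using Finset.induction_on with
  | empty => simp [SA]
  | insert k A hk ih =>
    rw [step_int hd hk 2]
    simp only [inner2 hd]
    rw [integral_add (int_SA_pow hd A 2) (integrable_const _), ih, Finset.card_insert_of_notMem hk]
    simp

lemma E4 {d : ℕ} (hd : 1 ≤ d) (A : Finset (Fin d)) :
    ∫ U, ‖SA A U‖ ^ 4 ∂(lawU d) = (A.card : ℝ) ^ 2 + 2 / d * (A.card * (A.card - 1)) := by
  have hL := lawU_prob hd
  induction A using Finset.induction_on with
  | empty => simp [SA]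
  | insert k A hk ih =>
    rw [step_int hd hk 4]
    simp only [inner4 hd]
    have hi : Integrable (fun U => ‖SA A U‖ ^ 4 + (2 + 4 / (d : ℝ)) * ‖SA A U‖ ^ 2) (lawU d) :=
      (int_SA_pow hd A 4).add ((int_SA_pow hd A 2).const_mul _)
    rw [integral_add hi
      (integrable_const _), integral_add (int_SA_pow hd A 4) ((int_SA_pow hd A 2).const_mul _),
      integral_const_mul, ih, E2 hd, Finset.card_insert_of_notMem hk]
    simp only [integral_const, probReal_univ, smul_eq_mul]
    push_cast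
    have hd' : (0 : ℝ) < d := by exact_mod_cast hd
    field_simp
    ring

lemma T_var {d : ℕ} (hd : 1 ≤ d) : ∫ U, (T U - 1) ^ 2 ∂(lawU d) ≤ 2 / (d : ℝ) := by
  have hL := lawU_prob hd
  have hd' : (0 : ℝ) < d := by exact_mod_cast hd
  have h : ∀ U : Fin d → S d, (T U - 1) ^ 2 = (1 / (d : ℝ) ^ 2) * ‖SA Finset.univ U‖ ^ 4 -
      ((2 / (d : ℝ)) * ‖SA Finset.univ U‖ ^ 2 - 1) := by
    intro U
    unfold T SA
    field_simp
    ring
  simp only [h]
  have hi : Integrable (fun U : Fin d → S d =>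
      (2 / (d : ℝ)) * ‖SA Finset.univ U‖ ^ 2 - 1) (lawU d) :=
    ((int_SA_pow hd _ 2).const_mul _).sub (integrable_const _)
  rw [integral_sub ((int_SA_pow hd _ 4).const_mul _) hi,
    integral_sub ((int_SA_pow hd _ 2).const_mul _) (integrable_const _), integral_const_mul,
    integral_const_mul, E4 hd, E2 hd]
  simp only [integral_const, probReal_univ, smul_eq_mul, Finset.card_univ, Fintype.card_fin]
  have : 1 / (d : ℝ) ^ 2 * ((d : ℝ) ^ 2 + 2 / d * (d * (d - 1))) - (2 / (d : ℝ) * d - 1 * 1)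
      = 2 / d - 2 / d ^ 2 := by
    field_simp
    ring
  rw [this]
  have : 0 ≤ 2 / (d : ℝ) ^ 2 := by positivity
  linarith

lemma T_dev {d : ℕ} (hd : 1 ≤ d) :
    ∫ U, |1 - T U| ∂(lawU d) ≤ 3 / 2 / Real.sqrt d := by
  have hL := lawU_prob hd
  have hd' : (0 : ℝ) < d := by exact_mod_cast hd
  set y := Real.sqrt d with hy
  have hy0 : 0 < y := Real.sqrt_pos.2 hd'
  have hy2 : y ^ 2 = d := Real.sq_sqrt hd'.le
  have hTi : Integrable (fun U : Fin d → S d => (T U - 1) ^ 2) (lawU d) := by
    refine Integrable.of_bound ((((T_continuous d).sub continuous_const).pow 2).measurable.aestronglyMeasurable)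
      (((d : ℝ) + 1) ^ 2) (Eventually.of_forall fun U => ?_)
    rw [norm_pow, Real.norm_eq_abs]
    refine pow_le_pow_left₀ (abs_nonneg _) ?_ 2
    rw [abs_le]
    constructor <;> linarith [T_nonneg U, T_le U]
  have h1 : ∫ U, |1 - T U| ∂(lawU d) ≤ ∫ U, (y / 2 * (T U - 1) ^ 2 + 1 / (2 * y)) ∂(lawU d) := by
    refine integral_mono_of_nonneg (Eventually.of_forall fun U => abs_nonneg _)
      ((hTi.const_mul _).add (integrable_const _)) (Eventually.of_forall fun U => ?_)
    simp only
    have h2 : (T U - 1) ^ 2 = |1 - T U| ^ 2 := by rw [sq_abs]; ring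
    rw [h2]
    set t := |1 - T U|
    have h3 : y / 2 * t ^ 2 + 1 / (2 * y) - t = (y * t - 1) ^ 2 / (2 * y) := by
      field_simp
      ring
    have h4 : 0 ≤ (y * t - 1) ^ 2 / (2 * y) := by positivity
    linarith
  rw [integral_add (hTi.const_mul _) (integrable_const _), integral_const_mul] at h1
  simp only [integral_const, probReal_univ, smul_eq_mul, one_mul] at h1
  have h5 := mul_le_mul_of_nonneg_left (T_var hd) (by positivity : 0 ≤ y / 2)
  have h6 : y / 2 * (2 / (d : ℝ)) = 1 / y := by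
    rw [← hy2]; field_simp
  have h7 : 1 / y + 1 / (2 * y) = 3 / 2 / y := by field_simp; ring
  rw [h6] at h5
  linarith

/-- the truncated mean -/
lemma trunc_mean {d : ℕ} (hd : 1 ≤ d) {K : ℝ} (hK : 0 ≤ K) :
    ∫ U, min (max (Z U) 0) K ∂(lawU d) ≤
      1 - ((d : ℝ) - 1) / (3 * d) + K * (3 / 2 / Real.sqrt d) := by
  have hL := lawU_prob hd
  have hTi : Integrable (fun U : Fin d → S d => |1 - T U|) (lawU d) := by
    refine Integrable.of_bound ((continuous_const.sub (T_continuous d)).abs.measurable.aestronglyMeasurable)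
      ((d : ℝ) + 1) (Eventually.of_forall fun U => ?_)
    rw [Real.norm_eq_abs, abs_abs, abs_le]
    constructor <;> linarith [T_nonneg U, T_le U]
  have hZT : Integrable (fun U : Fin d → S d => Z U * T U) (lawU d) := by
    refine Integrable.of_bound (((measurable_Z hd).mul (T_continuous d).measurable).aestronglyMeasurable)
      ((2 : ℝ) ^ d * d) (Eventually.of_forall fun U => ?_)
    rw [norm_mul, Real.norm_eq_abs, Real.norm_eq_abs, abs_of_nonneg (Z_nonneg U),
      abs_of_nonneg (T_nonneg U)]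
    exact mul_le_mul (Z_le hd U) (T_le U) (T_nonneg U) (by positivity)
  have h1 : ∫ U, min (max (Z U) 0) K ∂(lawU d) ≤ ∫ U, (Z U * T U + K * |1 - T U|) ∂(lawU d) := by
    refine integral_mono_of_nonneg (Eventually.of_forall fun U => ?_)
      (hZT.add (hTi.const_mul _)) (Eventually.of_forall fun U => ?_)
    · exact le_min (le_max_right _ _) hK
    · simp only
      rw [max_eq_left (Z_nonneg U)]
      have hz := Z_nonneg U
      have ht := T_nonneg U
      rcases le_total 1 (T U) with h | h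
      · have h2 : min (Z U) K ≤ Z U := min_le_left _ _
        have h3 : 0 ≤ K * |1 - T U| := mul_nonneg hK (abs_nonneg _)
        nlinarith
      · rw [abs_of_nonneg (by linarith)]
        have h2 : min (Z U) K ≤ Z U := min_le_left _ _
        have h3 : min (Z U) K ≤ K := min_le_right _ _
        nlinarith
  rw [integral_add hZT (hTi.const_mul _), integral_const_mul] at h1
  have h2 := int_ZT hd
  have h3 := mul_le_mul_of_nonneg_left (T_dev hd) hK
  linarith

/-- the law of the rescaled angle -/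
noncomputable def lawZ (d : ℕ) : Measure ℝ := (lawU d).map Z

/-- every subsequential limit has mean at most `2/3` -/
lemma limit_mean {φ : ℕ → ℕ} (hφ : Tendsto φ atTop atTop) {μ : Measure ℝ}
    [IsProbabilityMeasure μ]
    (h : ∀ f : BoundedContinuousFunction ℝ ℝ, Tendsto (fun n => ∫ x, f x ∂(lawZ (φ n))) atTop
      (𝓝 (∫ x, f x ∂μ))) :
    ∫⁻ x, ENNReal.ofReal x ∂μ ≤ ENNReal.ofReal (2 / 3) := by
  have hK : ∀ K : ℕ, ∫ x : ℝ, min (max x 0) (K : ℝ) ∂μ ≤ 2 / 3 := by
    intro K
    have hc : Continuous (fun x : ℝ => min (max x 0) (K : ℝ)) := by fun_prop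
    have hb : ∀ x : ℝ, ‖min (max x 0) (K : ℝ)‖ ≤ (K : ℝ) := by
      intro x
      rw [Real.norm_eq_abs, abs_of_nonneg (le_min (le_max_right _ _) (Nat.cast_nonneg K))]
      exact min_le_right _ _
    set f : BoundedContinuousFunction ℝ ℝ := BoundedContinuousFunction.ofNormedAddCommGroup
      (fun x : ℝ => min (max x 0) (K : ℝ)) hc (K : ℝ) hb with hf
    have h1 := h f
    have h2 : ∀ᶠ n in atTop, ∫ x, f x ∂(lawZ (φ n)) ≤
        1 - ((φ n : ℝ) - 1) / (3 * (φ n : ℝ)) + K * (3 / 2 / Real.sqrt (φ n : ℝ)) := by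
      filter_upwards [hφ.eventually_ge_atTop 1] with n hn
      unfold lawZ
      rw [integral_map (measurable_Z hn).aemeasurable f.continuous.aestronglyMeasurable]
      exact trunc_mean hn (Nat.cast_nonneg K)
    have h3 : Tendsto (fun n => 1 - ((φ n : ℝ) - 1) / (3 * (φ n : ℝ)) +
        K * (3 / 2 / Real.sqrt (φ n : ℝ))) atTop (𝓝 (2 / 3)) := by
      have hcast : Tendsto (fun n => (φ n : ℝ)) atTop atTop :=
        tendsto_natCast_atTop_atTop.comp hφ
      have e1 : Tendsto (fun n => (1 : ℝ) / (φ n : ℝ)) atTop (𝓝 0) :=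
        tendsto_const_nhds.div_atTop hcast
      have e2 : Tendsto (fun n => (3 : ℝ) / 2 / Real.sqrt (φ n : ℝ)) atTop (𝓝 0) :=
        tendsto_const_nhds.div_atTop (Real.tendsto_sqrt_atTop.comp hcast)
      have e3 : Tendsto (fun n => (2 / 3 : ℝ) + 1 / 3 * ((1 : ℝ) / (φ n : ℝ)) +
          K * (3 / 2 / Real.sqrt (φ n : ℝ))) atTop (𝓝 (2 / 3 + 1 / 3 * 0 + K * 0)) :=
        ((tendsto_const_nhds.add (e1.const_mul _)).add (e2.const_mul _))
      rw [mul_zero, mul_zero, add_zero, add_zero] at e3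
      refine e3.congr' ?_
      filter_upwards [hφ.eventually_ge_atTop 1] with n hn
      have : (0 : ℝ) < (φ n : ℝ) := by exact_mod_cast hn
      field_simp
      ring
    exact le_of_tendsto_of_tendsto h1 h3 h2
  -- monotone convergence
  have hmono : ∫⁻ x, ENNReal.ofReal x ∂μ = ⨆ K : ℕ, ∫⁻ x : ℝ, ENNReal.ofReal (min (max x 0) (K : ℝ)) ∂μ := by
    rw [← lintegral_iSup]
    · refine lintegral_congr fun x => ?_
      apply le_antisymm
      · obtain ⟨K, hK⟩ := exists_nat_ge (max x 0)
        refine le_trans ?_ (le_iSup _ K)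
        rw [min_eq_left hK]
        exact ENNReal.ofReal_le_ofReal (le_max_left _ _)
      · refine iSup_le fun K => ?_
        rcases le_total 0 x with hx | hx
        · rw [max_eq_left hx]; exact ENNReal.ofReal_le_ofReal (min_le_left _ _)
        · rw [max_eq_right hx, min_eq_left (Nat.cast_nonneg K)]; simp
    · intro K
      exact (by fun_prop : Continuous (fun x : ℝ => min (max x 0) (K : ℝ))).measurable.ennreal_ofReal
    · intro K L hKL x
      exact ENNReal.ofReal_le_ofReal (min_le_min_left _ (by exact_mod_cast hKL))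
  rw [hmono]
  refine iSup_le fun K => ?_
  rw [← ofReal_integral_eq_lintegral_ofReal]
  · exact ENNReal.ofReal_le_ofReal (hK K)
  · refine Integrable.of_bound ((by fun_prop : Continuous (fun x : ℝ => min (max x 0) (K : ℝ))).aestronglyMeasurable)
      (K : ℝ) (Eventually.of_forall fun x => ?_)
    rw [Real.norm_eq_abs, abs_of_nonneg (le_min (le_max_right _ _) (Nat.cast_nonneg K))]
    exact min_le_right _ _
  · exact Eventually.of_forall fun x => le_min (le_max_right _ _) (Nat.cast_nonneg K)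

/-- **Main theorem.** -/
theorem result :
    -- the objects are the intended ones
    (∀ d : ℕ, 1 ≤ d → IsProbabilityMeasure (unif d) ∧
      (∀ R : E d ≃ₗᵢ[ℝ] E d, MeasurePreserving (onSphere R) (unif d) (unif d)) ∧
      (∀ U : Fin d → S d, NullMeasurableSet {u : S d | (u : E d) ∈ pos fun i => (U i : E d)}
        (unif d)) ∧
      Measurable (alpha : (Fin d → S d) → ℝ)) ∧
    -- every subsequential limit in distribution of `2^d α_d` has mean at most `2/3`
    (∀ φ : ℕ → ℕ, Tendsto φ atTop atTop → ∀ μ : Measure ℝ, IsProbabilityMeasure μ →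
      (∀ f : BoundedContinuousFunction ℝ ℝ,
        Tendsto (fun n => ∫ U, f (2 ^ (φ n) * alpha U) ∂(lawU (φ n))) atTop (𝓝 (∫ x, f x ∂μ))) →
      μ (Iio 0) = 0 ∧ ∫⁻ x, ENNReal.ofReal x ∂μ ≤ ENNReal.ofReal (2 / 3)) ∧
    -- hence the asked convergence fails
    (¬ ∃ μ : Measure ℝ, IsProbabilityMeasure μ ∧ μ (Iio 0) = 0 ∧ ∫ x, x ∂μ = 1 ∧
      ∀ f : BoundedContinuousFunction ℝ ℝ,
        Tendsto (fun d : ℕ => ∫ U, f (2 ^ d * alpha U) ∂(lawU d)) atTop (𝓝 (∫ x, f x ∂μ))) := by
  have key : ∀ φ : ℕ → ℕ, Tendsto φ atTop atTop → ∀ μ : Measure ℝ, IsProbabilityMeasure μ →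
      (∀ f : BoundedContinuousFunction ℝ ℝ,
        Tendsto (fun n => ∫ U, f (2 ^ (φ n) * alpha U) ∂(lawU (φ n))) atTop (𝓝 (∫ x, f x ∂μ))) →
      μ (Iio 0) = 0 ∧ ∫⁻ x, ENNReal.ofReal x ∂μ ≤ ENNReal.ofReal (2 / 3) := by
    intro φ hφ μ hμ h
    have h' : ∀ f : BoundedContinuousFunction ℝ ℝ,
        Tendsto (fun n => ∫ x, f x ∂(lawZ (φ n))) atTop (𝓝 (∫ x, f x ∂μ)) := by
      intro f
      refine (h f).congr' ?_
      filter_upwards [hφ.eventually_ge_atTop 1] with n hn
      unfold lawZ
      rw [integral_map (measurable_Z hn).aemeasurable f.continuous.aestronglyMeasurable]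
      rfl
    refine ⟨?_, limit_mean hφ h'⟩
    -- no mass on the negative half line
    have hc : Continuous (fun x : ℝ => min (max (-x) 0) 1) := by fun_prop
    have hb : ∀ x : ℝ, ‖min (max (-x) 0) (1 : ℝ)‖ ≤ 1 := by
      intro x
      rw [Real.norm_eq_abs, abs_of_nonneg (le_min (le_max_right _ _) zero_le_one)]
      exact min_le_right _ _
    have h1 := h (BoundedContinuousFunction.ofNormedAddCommGroup
      (fun x : ℝ => min (max (-x) 0) 1) hc 1 hb)
    have h2 : ∀ n, ∫ U, (BoundedContinuousFunction.ofNormedAddCommGroup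
      (fun x : ℝ => min (max (-x) 0) 1) hc 1 hb) (2 ^ (φ n) * alpha U) ∂(lawU (φ n)) = 0 := by
      intro n
      have : ∀ U : Fin (φ n) → S (φ n), (BoundedContinuousFunction.ofNormedAddCommGroup
        (fun x : ℝ => min (max (-x) 0) 1) hc 1 hb) (2 ^ (φ n) * alpha U) = 0 := by
        intro U
        have hz : 0 ≤ 2 ^ (φ n) * alpha U := Z_nonneg U
        change min (max (-(2 ^ (φ n) * alpha U)) 0) (1 : ℝ) = 0
        rw [max_eq_right (by linarith), min_eq_left zero_le_one]
      simp only [this, integral_zero]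
    have h3 : ∫ x : ℝ, min (max (-x) 0) (1 : ℝ) ∂μ = 0 := by
      have h4 : Tendsto (fun _ : ℕ => (0 : ℝ)) atTop (𝓝 (∫ x : ℝ, min (max (-x) 0) (1 : ℝ) ∂μ)) := by
        refine h1.congr fun n => h2 n
      exact (tendsto_nhds_unique h4 tendsto_const_nhds)
    have h3 := (integral_eq_zero_iff_of_nonneg (μ := μ) (f := fun x : ℝ => min (max (-x) 0) 1)
      (fun x => le_min (le_max_right _ _) zero_le_one)
      (Integrable.of_bound hc.aestronglyMeasurable 1 (Eventually.of_forall hb))).1 h3
    rw [Filter.EventuallyEq, ae_iff] at h3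
    refine measure_mono_null (fun x hx => ?_) h3
    have hx' : x < 0 := hx
    change ¬ (min (max (-x) 0) (1 : ℝ) = 0)
    rw [max_eq_left (by linarith)]
    exact ne_of_gt (lt_min (by linarith) one_pos)
  refine ⟨fun d hd => ⟨unif_prob hd, unif_map, fun U => ?_, measurable_alpha hd⟩, key, ?_⟩
  · exact (measSet_pos.preimage (f := fun u : S d => (U, (u : E d)))
      (measurable_const.prodMk measurable_subtype_coe)).nullMeasurableSet
  · rintro ⟨μ, hμ, hμ0, hμ1, h⟩
    have h1 := (key id tendsto_id μ hμ h).2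
    have h2 : ∫ x, x ∂μ ≤ 2 / 3 := by
      have hi : Integrable (fun x : ℝ => x) μ := by
        by_contra hc
        rw [integral_undef hc] at hμ1
        norm_num at hμ1
      have hnn : 0 ≤ᵐ[μ] fun x : ℝ => x := by
        rw [Filter.EventuallyLE, ae_iff]
        refine measure_mono_null (fun x hx => ?_) hμ0
        exact not_le.1 hx
      rw [← ofReal_integral_eq_lintegral_ofReal hi hnn] at h1
      exact (ENNReal.ofReal_le_ofReal_iff (by norm_num)).1 h1
    linarith

end Pool.Agent.Results.MP_9a1bf0_pr.SolidAngleLimit
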